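import Pool.Agent.W217.BE.Stm2

/-! Part BE-2-HT2: heights of annihilators of multigraded modules, at a set of variables. -/

set_option autoImplicit false

namespace Pool.Agent.W716.BEHT2

open Pool.Agent.W217.BE

section

variable {A : Type} [CommRing A] {k : ℕ}

/-- The variables in `J` go to zero, the coefficients are reduced modulo `q`. -/
noncomputable def g (q : Ideal A) (J : Fin k → Bool) :
    MvPolynomial (Fin k) A →+* MvPolynomial (Fin k) (A ⧸ q) :=
  MvPolynomial.eval₂Hom (MvPolynomial.C.comp (Ideal.Quotient.mk q))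
    (fun j => if J j = true then 0 else MvPolynomial.X j)

theorem g_off (q : Ideal A) (J : Fin k → Bool) (α : Fin k →₀ ℕ) (a : A)
    (h : ∀ j, J j = true → α j = 0) :
    g q J (MvPolynomial.monomial α a) = MvPolynomial.monomial α (Ideal.Quotient.mk q a) := by
  rw [g, MvPolynomial.eval₂Hom_monomial, MvPolynomial.monomial_eq]
  congr 1
  refine Finsupp.prod_congr ?_
  intro j hj
  by_cases hJ : J j = true
  · exact absurd (h j hJ) (Finsupp.mem_support_iff.1 hj)
  · rw [if_neg hJ]

theorem g_on (q : Ideal A) (J : Fin k → Bool) (α : Fin k →₀ ℕ) (a : A) (j : Fin k)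
    (hj : J j = true) (hα : α j ≠ 0) : g q J (MvPolynomial.monomial α a) = 0 := by
  rw [g, MvPolynomial.eval₂Hom_monomial]
  have : (α.prod fun i n => (if J i = true then (0 : MvPolynomial (Fin k) (A ⧸ q))
      else MvPolynomial.X i) ^ n) = 0 := by
    refine Finset.prod_eq_zero (Finsupp.mem_support_iff.2 hα) ?_
    show (if J j = true then (0 : MvPolynomial (Fin k) (A ⧸ q)) else MvPolynomial.X j) ^ (α j) = 0
    rw [if_pos hj, zero_pow hα]
  rw [this, mul_zero]

theorem coeff_g (q : Ideal A) (J : Fin k → Bool) (α : Fin k →₀ ℕ)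
    (h : ∀ j, J j = true → α j = 0) (f : MvPolynomial (Fin k) A) :
    MvPolynomial.coeff α (g q J f) = Ideal.Quotient.mk q (MvPolynomial.coeff α f) := by
  classical
  induction f using MvPolynomial.induction_on' with
  | monomial u a =>
    by_cases hu : ∀ j, J j = true → u j = 0
    · rw [g_off q J u a hu, MvPolynomial.coeff_monomial, MvPolynomial.coeff_monomial]
      split_ifs with h1
      · rfl
      · simp
    · push Not at hu
      obtain ⟨j, hj, hne⟩ := hu
      rw [g_on q J u a j hj hne, MvPolynomial.coeff_zero, MvPolynomial.coeff_monomial, if_neg]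
      · simp
      · intro h1
        rw [h1] at hne
        exact hne (h j hj)
  | add p r hp hr =>
    rw [map_add, MvPolynomial.coeff_add, MvPolynomial.coeff_add, hp, hr, map_add]

theorem ker_le (q : Ideal A) (J : Fin k → Bool) :
    RingHom.ker (g q J) ≤ q.map (algebraMap A (MvPolynomial (Fin k) A)) ⊔
      Ideal.span ((MvPolynomial.X : Fin k → MvPolynomial (Fin k) A) '' {j | J j = true}) := by
  intro f hf
  rw [RingHom.mem_ker] at hf
  rw [← MvPolynomial.support_sum_monomial_coeff f]
  refine Ideal.sum_mem _ ?_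
  intro β _
  by_cases hβ : ∀ j, J j = true → β j = 0
  · refine Ideal.mem_sup_left ?_
    have h1 := coeff_g q J β hβ f
    rw [hf, MvPolynomial.coeff_zero] at h1
    have h2 : MvPolynomial.coeff β f ∈ q := Ideal.Quotient.eq_zero_iff_mem.1 h1.symm
    have h3 : MvPolynomial.monomial β (MvPolynomial.coeff β f) =
        MvPolynomial.monomial β (1 : A) *
          algebraMap A (MvPolynomial (Fin k) A) (MvPolynomial.coeff β f) := by
      rw [MvPolynomial.algebraMap_eq, mul_comm, MvPolynomial.C_mul_monomial, mul_one]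
    rw [h3]
    exact Ideal.mul_mem_left _ _ (Ideal.mem_map_of_mem _ h2)
  · push Not at hβ
    obtain ⟨j, hj, hne⟩ := hβ
    refine Ideal.mem_sup_right ?_
    have h3 : MvPolynomial.monomial β (MvPolynomial.coeff β f) =
        MvPolynomial.monomial (β - Finsupp.single j 1) (MvPolynomial.coeff β f) *
          MvPolynomial.X j := by
      have h4 : β - Finsupp.single j 1 + Finsupp.single j 1 = β := by
        ext i
        by_cases hij : i = j
        · subst hij
          simp
          omega
        · simp [Ne.symm hij]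
      rw [MvPolynomial.X, MvPolynomial.monomial_mul, mul_one, h4]
    rw [h3]
    exact Ideal.mul_mem_left _ _ (Ideal.subset_span ⟨j, hj, rfl⟩)

theorem X_mem (q : Ideal A) (J : Fin k → Bool) (j : Fin k) (hj : J j = true) :
    (MvPolynomial.X j : MvPolynomial (Fin k) A) ∈ RingHom.ker (g q J) := by
  rw [RingHom.mem_ker, g, MvPolynomial.coe_eval₂Hom, MvPolynomial.eval₂_X, if_pos hj]

theorem comap_ker (q : Ideal A) (J : Fin k → Bool) :
    (RingHom.ker (g q J)).comap (algebraMap A (MvPolynomial (Fin k) A)) = q := by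
  ext a
  rw [Ideal.mem_comap, RingHom.mem_ker, MvPolynomial.algebraMap_eq, g, MvPolynomial.coe_eval₂Hom,
    MvPolynomial.eval₂_C, RingHom.comp_apply, MvPolynomial.C_eq_zero,
    Ideal.Quotient.eq_zero_iff_mem]

theorem height_ker_le [IsNoetherianRing A] (q : Ideal A) [hq : q.IsPrime] (J : Fin k → Bool) :
    (RingHom.ker (g q J)).height ≤
      q.height + ((∑ j, if J j = true then 1 else 0 : ℕ) : ℕ∞) := by
  classical
  obtain ⟨Q, hQ⟩ : ∃ Q, Q = RingHom.ker (g q J) := ⟨_, rfl⟩
  have hQp : Q.IsPrime := by rw [hQ]; exact RingHom.ker_isPrime _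
  have hover : Q.LiesOver q := ⟨by rw [Ideal.under_def, hQ, comap_ker]⟩
  have h1 := Ideal.height_le_height_add_of_liesOver q Q
  rw [← hQ]
  refine h1.trans (add_le_add le_rfl ?_)
  obtain ⟨mk, hmk⟩ : ∃ mk, mk =
    Ideal.Quotient.mk (q.map (algebraMap A (MvPolynomial (Fin k) A))) := ⟨_, rfl⟩
  obtain ⟨S, hS⟩ : ∃ S : Finset (MvPolynomial (Fin k) A ⧸
    q.map (algebraMap A (MvPolynomial (Fin k) A))),
    S = (Finset.univ.filter (fun j => J j = true)).image (fun j => mk (MvPolynomial.X j)) :=
    ⟨_, rfl⟩
  have hle : Q.map mk = Ideal.span (S : Set (MvPolynomial (Fin k) A ⧸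
    q.map (algebraMap A (MvPolynomial (Fin k) A)))) := by
    apply le_antisymm
    · rw [Ideal.map_le_iff_le_comap, hQ]
      refine (ker_le q J).trans (sup_le ?_ ?_)
      · rw [← Ideal.map_le_iff_le_comap, hmk, Ideal.map_quotient_self]
        exact bot_le
      · rw [Ideal.span_le]
        rintro _ ⟨j, hj, rfl⟩
        show mk (MvPolynomial.X j) ∈ Ideal.span (S : Set (MvPolynomial (Fin k) A ⧸
          q.map (algebraMap A (MvPolynomial (Fin k) A))))
        apply Ideal.subset_span
        rw [hS, Finset.coe_image]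
        exact ⟨j, by simpa using hj, rfl⟩
    · rw [Ideal.span_le, hS, Finset.coe_image]
      rintro _ ⟨j, hj, rfl⟩
      apply Ideal.mem_map_of_mem
      rw [hQ]
      exact X_mem q J j (by simpa using hj)
  rw [← hmk]
  have hne : Q.map mk ≠ ⊤ := by
    intro htop
    apply hQp.ne_top
    have h2 : (Q.map mk).comap mk = Q := by
      rw [hmk, Ideal.comap_map_mk]
      rw [Ideal.map_le_iff_le_comap, hQ, comap_ker]
    rw [← h2, htop, Ideal.comap_top]
  have h3 := Ideal.height_le_spanFinrank _ hne
  refine h3.trans ?_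
  rw [hle]
  have h4 := Submodule.spanFinrank_span_le_encard (R := MvPolynomial (Fin k) A ⧸
    q.map (algebraMap A (MvPolynomial (Fin k) A))) (S : Set (MvPolynomial (Fin k) A ⧸
    q.map (algebraMap A (MvPolynomial (Fin k) A))))
  refine h4.trans ?_
  rw [Set.encard_coe_eq_coe_finsetCard]
  have h5 : S.card ≤ ∑ j, if J j = true then 1 else 0 := by
    rw [hS]
    refine Finset.card_image_le.trans ?_
    rw [Finset.card_filter]
  exact_mod_cast h5

end

theorem main : HOMANN → HT2 := by
  intro hH A _ _ k J M _ _ _ _ ℳ hint hX q hq hann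
  refine le_trans (Ideal.height_mono ?_) (height_ker_le q J)
  intro f hf
  have hmem := hH A k M ℳ hint hX f hf
  rw [← MvPolynomial.support_sum_monomial_coeff f]
  refine Ideal.sum_mem _ ?_
  intro β _
  by_cases hβ : ∀ j, J j = true → β j = 0
  · rw [RingHom.mem_ker, g_off q J β _ hβ]
    have h1 : MvPolynomial.coeff β f ∈ q := by
      apply hann
      refine ⟨β, hβ, fun x => ?_⟩
      exact Module.mem_annihilator.1 (hmem β) x
    rw [Ideal.Quotient.eq_zero_iff_mem.2 h1, MvPolynomial.monomial_zero]
  · push Not at hβ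
    obtain ⟨j, hj, hne⟩ := hβ
    rw [RingHom.mem_ker]
    exact g_on q J β _ j hj hne

end Pool.Agent.W716.BEHT2
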